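import Pool.Agent.Y116.UV.Defs

/-!
# Systems of polynomial equations with few terms: definitions
-/

set_option autoImplicit false

open CategoryTheory AlgebraicGeometry MvPolynomial Pool.Agent.Y116.UV

namespace Pool.Agent.U672.MW

variable {k : Type} [Field k] {σ κ ρ : Type}

/-- The closed subscheme of the affine space with the coordinates `σ` given by the equations
`G i = 0`. -/
noncomputable def zeros (G : κ → MvPolynomial σ k) : Sch k :=
  aff k (MvPolynomial σ k ⧸ Ideal.span (Set.range G))

/-- The exponents of `f` are affinely independent over `ℚ`. -/
def Simplicial (f : MvPolynomial σ k) : Prop :=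
  AffineIndependent ℚ fun m : f.support => fun s => (((m : σ →₀ ℕ) s : ℕ) : ℚ)

/-- The excess of a system of polynomials: the sum of the numbers of terms minus two, over the
polynomials with more than two terms. -/
def excessOf [Fintype κ] (G : κ → MvPolynomial σ k) : ℕ := ∑ i, ((G i).support.card - 2)

/-- The exponent `m` as an element of `ℤ ^ σ`. -/
def expo (m : σ →₀ ℕ) : σ → ℤ := fun s => m s

/-- The differences of the exponents of each of the polynomials. -/
def differences (G : κ → MvPolynomial σ k) : Set (σ → ℤ) :=
  {g | ∃ i, ∃ a ∈ (G i).support, ∃ b ∈ (G i).support, g = expo a - expo b}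

/-- The exponents of the polynomials `H i` are independent modulo the differences of the exponents of
the `G j`: if integers `n i m` satisfy `∑ m, n i m = 0` for all `i`, and if `∑ n i m • m` is in the
lattice generated by the differences of exponents of each `G j`, then `n i m = 0` for all exponents `m`
of `H i`. -/
def Independent [Fintype ρ] (G : κ → MvPolynomial σ k) (H : ρ → MvPolynomial σ k) : Prop :=
  ∀ n : ρ → (σ →₀ ℕ) → ℤ, (∀ i, ∑ m ∈ (H i).support, n i m = 0) →
    ∑ i, ∑ m ∈ (H i).support, n i m • expo m ∈ Submodule.span ℤ (differences G) →
      ∀ i, ∀ m ∈ (H i).support, n i m = 0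

end Pool.Agent.U672.MW
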