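import Pool.Agent.U213.WM.Defs

/-!
# Tensor products of representations of the Weil group with a monodromy operator

Let `A`, `B` be representations of the Weil group with monodromy operators. On `A ⊗ B` an element `g` acts
by `g ⊗ g`, and the monodromy operator is `N ⊗ 1 + 1 ⊗ N`.
-/

set_option autoImplicit false

open CategoryTheory AlgebraicGeometry Module Pool.Agent.Y116.UV Pool.Agent.U213.WM

namespace Pool.Agent.U672.MW

universe u v

section lin

variable (E : Type u) [Field E] (V V' : Type v) [AddCommGroup V] [Module E V] [AddCommGroup V']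
  [Module E V']

/-- The tensor product of the vector spaces `V` and `V'`. -/
def Tens : Type v := TensorProduct E V V'

noncomputable instance tensGroup : AddCommGroup (Tens E V V') :=
  @TensorProduct.addCommGroup E _ V V' _ _ _ _

noncomputable instance tensModule : Module E (Tens E V V') :=
  @TensorProduct.instModule E _ V V' _ _ _ _

variable {E V V'}

/-- The element `x ⊗ y`. -/
noncomputable def tm (x : V) (y : V') : Tens E V V' := TensorProduct.tmul E x y

/-- The operator `f ⊗ f'`. -/
noncomputable def tmap (f : Module.End E V) (f' : Module.End E V') : Module.End E (Tens E V V') :=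
  TensorProduct.map f f'

/-- The operator `N ⊗ 1 + 1 ⊗ N'`. -/
noncomputable def leib (N : Module.End E V) (N' : Module.End E V') : Module.End E (Tens E V V') :=
  tmap N 1 + tmap 1 N'

lemma tmap_tm (f : Module.End E V) (f' : Module.End E V') (x : V) (y : V') :
    tmap f f' (tm x y) = tm (f x) (f' y) := TensorProduct.map_tmul f f' x y

lemma leib_tm (N : Module.End E V) (N' : Module.End E V') (x : V) (y : V') :
    leib N N' (tm x y) = tm (N x) y + tm x (N' y) := by
  rw [leib, LinearMap.add_apply, tmap_tm, tmap_tm]
  rfl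

lemma tmap_mul (f g : Module.End E V) (f' g' : Module.End E V') :
    tmap (f * g) (f' * g') = tmap f f' * tmap g g' := TensorProduct.map_mul f g f' g'

lemma tens_finite (h : Module.Finite E V) (h' : Module.Finite E V') : Module.Finite E (Tens E V V') :=
  inferInstanceAs (Module.Finite E (TensorProduct E V V'))

lemma tens_ind {P : Tens E V V' → Prop} (h0 : P 0) (h1 : ∀ x y, P (tm x y))
    (h2 : ∀ z z', P z → P z' → P (z + z')) (z : Tens E V V') : P z :=
  TensorProduct.induction_on (motive := P) z h0 h1 h2

lemma smul_tm (c : E) (x : V) (y : V') : (tm (c • x) y : Tens E V V') = c • tm x y :=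
  (TensorProduct.smul_tmul' c x y).symm

lemma tm_smul (c : E) (x : V) (y : V') : (tm x (c • y) : Tens E V V') = c • tm x y :=
  TensorProduct.tmul_smul c x y

lemma leib_nilpotent {N : Module.End E V} {N' : Module.End E V'} (h : IsNilpotent N)
    (h' : IsNilpotent N') : IsNilpotent (leib N N') := by
  have hc : Commute (tmap N (1 : Module.End E V')) (tmap (1 : Module.End E V) N') := by
    show tmap N 1 * tmap 1 N' = tmap 1 N' * tmap N 1
    rw [← tmap_mul, ← tmap_mul, mul_one, one_mul, one_mul, mul_one]
  refine hc.isNilpotent_add ?_ ?_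
  · obtain ⟨n, hn⟩ := h
    refine ⟨n, (TensorProduct.map_pow N (1 : Module.End E V') n).trans ?_⟩
    rw [hn]
    exact TensorProduct.map_zero_left _
  · obtain ⟨n, hn⟩ := h'
    refine ⟨n, (TensorProduct.map_pow (1 : Module.End E V) N' n).trans ?_⟩
    rw [hn]
    exact TensorProduct.map_zero_right _

/-- `N R = c R N` -/
def Tw (c : E) (N R : Module.End E V) : Prop := ∀ x, N (R x) = c • R (N x)

lemma tw_tens {c : E} {N R : Module.End E V} {N' R' : Module.End E V'} (h : Tw c N R)
    (h' : Tw c N' R') : Tw c (leib N N') (tmap R R') := by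
  refine tens_ind ?_ (fun a b => ?_) (fun x y hx hy => ?_)
  · simp
  · rw [tmap_tm, leib_tm, leib_tm, map_add, tmap_tm, tmap_tm, h a, h' b, smul_add, smul_tm, tm_smul]
  · rw [map_add, map_add, map_add, map_add, hx, hy, smul_add]

/-- The representation `g ↦ ρ g ⊗ ρ' g`. -/
noncomputable def trep {W : Type} [Group W] (ρ : W →* Module.End E V) (ρ' : W →* Module.End E V') :
    W →* Module.End E (Tens E V V') where
  toFun g := tmap (ρ g) (ρ' g)
  map_one' := by rw [map_one, map_one]; exact TensorProduct.map_one
  map_mul' g h := by rw [map_mul, map_mul, tmap_mul]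

end lin

variable {E : Type u} [Field E] [CharZero E] {p : ℕ} {W : Type} [Group W] {ν : W → ℤ}

/-- The tensor product `A ⊗ B`: `g` acts by `g ⊗ g`, the monodromy operator is `N ⊗ 1 + 1 ⊗ N`. -/
noncomputable def tensor (A B : WD.{u, v} E p W ν) : WD.{u, v} E p W ν where
  V := Tens E A.V B.V
  finite := tens_finite A.finite B.finite
  ρ := trep A.ρ B.ρ
  N := leib A.N B.N
  nilpotent := leib_nilpotent A.nilpotent B.nilpotent
  comm := fun g => tw_tens (A.comm g) (B.comm g)

/-- `A` is a direct factor of the direct sum of the `U j`. -/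
def IsFactorSum {r : ℕ} (A : WD.{u, v} E p W ν) (U : Fin r → WD.{u, v} E p W ν) : Prop :=
  ∃ (s : ∀ j, WD.Hom A (U j)) (t : ∀ j, WD.Hom (U j) A), ∀ x, ∑ j, (t j).f ((s j).f x) = x

/-- Further known properties of the spaces `H n w X = gr^W_w H^n_c(X_K̄, ℚ_ℓ)`:
* `kuenneth`: `H n w (X × Y)` is a direct factor of a finite direct sum of spaces
  `H n₁ w₁ X ⊗ H n₂ w₂ Y` with `w₁ + w₂ = w` (Künneth formula; it is the sum of all of these with
  `n₁ + n₂ = n`);
* `transfer`: if the `A`-algebra `B` is free of rank `d + 1`, then `H n w (Spec A)` is a direct factor of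
  `H n w (Spec B)` (trace map for the finite flat morphism `Spec B → Spec A`). -/
structure IsTensorTheory {k : Type} [Field k] (T : Theory.{u, v} k E p W ν) : Prop where
  kuenneth : ∀ (n w : ℤ) (A B : Type) [CommRing A] [CommRing B] [Algebra k A] [Algebra k B]
    [Algebra.FiniteType k A] [Algebra.FiniteType k B],
    ∃ (r : ℕ) (n₁ w₁ n₂ w₂ : Fin r → ℤ), (∀ j, w₁ j + w₂ j = w) ∧
      IsFactorSum (T.H n w (aff k (TensorProduct k A B)))
        fun j => tensor (T.H (n₁ j) (w₁ j) (aff k A)) (T.H (n₂ j) (w₂ j) (aff k B))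
  transfer : ∀ (n w : ℤ) (A B : Type) [CommRing A] [CommRing B] [Algebra k A] [Algebra k B]
    [Algebra A B] [IsScalarTower k A B] [Algebra.FiniteType k A] (d : ℕ),
    Nonempty (Module.Basis (Fin (d + 1)) A B) →
      WD.IsFactor (T.H n w (aff k A)) (T.H n w (aff k B))

end Pool.Agent.U672.MW
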