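import Pool.Agent.U672.MW.Ten
import Pool.Agent.U672.TC.Main

/-!
# The monodromy-weight property: closure properties and systems with few terms
-/

set_option autoImplicit false

open CategoryTheory AlgebraicGeometry MvPolynomial Pool.Agent.Y116.UV Pool.Agent.Z125.UN
  Pool.Agent.U213.WM Pool.Agent.U672.ST Pool.Agent.U672.TC Pool.Agent.U738.BN

namespace Pool.Agent.U672.MW

universe u v

variable {k : Type} [Field k] {E : Type u} [Field E] [CharZero E] {p : ℕ} {W : Type} [Group W]
  {ν : W → ℤ} {T : Theory.{u, v} k E p W ν}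

/-- products and finite free coverings -/
theorem bndt [IsAlgClosed E] (hp : 1 < p) (hT : IsTensorTheory T) : BndT T.MW where
  toBnd := bnd T hp
  prod A B _ _ _ _ _ _ hA hB w n := by
    obtain ⟨r, n₁, w₁, n₂, w₂, hw, h⟩ := hT.kuenneth n w A B
    refine mw_sum hp h fun j => ?_
    rw [← hw j]
    exact mw_tensor hp (hA _ _) (hB _ _)
  transfer A B _ _ _ _ _ _ _ d b h w n := WD.mw_factor hp (hT.transfer n w A B d b) (h w n)

/-- the property is true in dimension at most two -/
theorem dim_two {C : Sch k → Prop} (hp : 1 < p) (hC : IsProjClass T C)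
    (hRZ : ∀ X, C X → topologicalKrullDim X.left ≤ (2 : ℕ) → ∀ m, T.Q1 m X) (A : Type) [CommRing A]
    [Algebra k A] [Algebra.FiniteType k A] (hA : ringKrullDim A ≤ (2 : ℕ)) : T.MW (aff k A) :=
  (class_dim_iff T hp hC 2).1 hRZ _ (ft_aff True) (by rw [topDim_aff]; exact hA)

theorem posN_two {C : Sch k → Prop} (hp : 1 < p) (hC : IsProjClass T C)
    (hRZ : ∀ X, C X → topologicalKrullDim X.left ≤ (2 : ℕ) → ∀ m, T.Q1 m X) :
    PosN True T.MW 2 where
  toPos := pos T hp hC
  dim A _ _ _ hA := dim_two hp hC hRZ A hA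

end Pool.Agent.U672.MW
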