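import Pool.Agent.U672.MW.Defs
import Pool.Agent.U213.WM.Main
import Pool.Agent.Y163.MW.WN
import Pool.Agent.Y153.MW.A
import Pool.Agent.Y664.MW.B2
import Pool.Agent.Y210.MW.B3
import Pool.Agent.Y141.MW.L
import Pool.Agent.Y614.MW.F
import Pool.Agent.Y136.UB.GenEig

/-!
# The monodromy-weight property of tensor products
-/

set_option autoImplicit false

open CategoryTheory AlgebraicGeometry Module Polynomial TensorProduct Pool.Agent.Y116.UV
  Pool.Agent.U213.WM Pool.Agent.U213.WM.WD Pool.Agent.Y163.MW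

namespace Pool.Agent.U672.MW

universe u v

variable {E : Type u} [Field E] [CharZero E] {p : ℕ} {W : Type} [Group W] {ν : W → ℤ}
  {A B : WD.{u, v} E p W ν} {g : W} {m m' : ℤ}

/-- There is a basis of weight vectors which is adapted to a representation of `sl(2)`. -/
def Adp (A : WD.{u, v} E p W ν) (m : ℤ) (g : W) : Prop :=
  ∃ (I : Type) (_ : Fintype I) (b : Basis I E A.V) (a : I → ℤ) (e h : Module.End E A.V),
    IsSl2 A.N b a e h ∧ ∀ i, b i ∈ A.wt g {m + a i}

lemma sum_wt {I : Type} (s : Finset I) (f : I → A.V) (J : Set ℤ) (h : ∀ i ∈ s, f i ∈ A.wt g J) :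
    ∑ i ∈ s, f i ∈ A.wt g J := Submodule.sum_mem _ h

section

variable (hp : 1 < p) (hg : ν g ≠ 0)

include hp hg

lemma int_wt (hA : A.Mixed g) : DirectSum.IsInternal fun c : ℤ => A.wt g {m + c} := by
  rw [DirectSum.isInternal_submodule_iff_iSupIndep_and_iSup_eq_top]
  constructor
  · intro c
    rw [Submodule.disjoint_def]
    intro x hx hx'
    refine disj hp hg (J := {m + c}) (J' := {m + c}ᶜ) disjoint_compl_right hx ?_
    refine (iSup₂_le fun j hj => ?_ : (⨆ j, ⨆ (_ : j ≠ c), A.wt g {m + j}) ≤ A.wt g {m + c}ᶜ) hx'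
    refine wt_mono ?_
    intro z hz
    rw [Set.mem_singleton_iff] at hz
    rw [Set.mem_compl_iff, Set.mem_singleton_iff]
    omega
  · rw [Submodule.eq_top_iff']
    intro x
    obtain ⟨P, hP, hx⟩ := hA x
    obtain ⟨a, b, hab⟩ := bounded hP
    have key : ∀ n : ℕ, ∀ y ∈ A.wt g {j | a ≤ j ∧ j < a + n}, y ∈ ⨆ c : ℤ, A.wt g {m + c} := by
      intro n
      induction n with
      | zero =>
        intro y hy
        have h0 : y = 0 := by
          refine disj hp hg (J := {j | a ≤ j ∧ j < a + ((0 : ℕ) : ℤ)})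
            (J' := {j | a ≤ j ∧ j < a + ((0 : ℕ) : ℤ)}) ?_ hy hy
          rw [Set.disjoint_left]
          intro j hj
          simp only [Set.mem_ofPred_eq] at hj
          omega
        rw [h0]
        exact zero_mem _
      | succ n ih =>
        intro y hy
        have h1 : ({j | a ≤ j ∧ j < a + ((n + 1 : ℕ) : ℤ)} : Set ℤ) =
            {j | a ≤ j ∧ j < a + n} ∪ {a + (n : ℤ)} := by
          ext j
          simp only [Set.mem_ofPred_eq, Set.union_singleton, Set.mem_insert_iff]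
          omega
        rw [h1] at hy
        obtain ⟨y1, hy1, y2, hy2, rfl⟩ := decomp hp hg (by
          rw [Set.disjoint_singleton_right]
          simp) hy
        refine add_mem (ih y1 hy1) (Submodule.mem_iSup_of_mem (a + n - m) ?_)
        rwa [show m + (a + n - m) = a + n by ring]
    refine key (b - a + 1).toNat x ⟨P, hab.mono ?_, hx⟩
    intro j hj
    have := hj.1
    have := hj.2
    simp only [Set.mem_ofPred_eq]
    omega

theorem adp_of_wt (h : A.WT m g) : Adp A m g := by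
  have hfin := A.finite
  have hint := int_wt hp hg (m := m) h.mixed
  have hN : ∀ r, ∀ x ∈ (fun c : ℤ => A.wt g {m + c}) r, A.N x ∈ (fun c : ℤ => A.wt g {m + c}) (r - 2) := by
    intro r x hx
    refine wt_mono ?_ (N_wt hp hx)
    intro j hj
    have hj' : j + 2 = m + r := hj
    rw [Set.mem_singleton_iff]
    omega
  obtain ⟨S⟩ := Pool.Agent.Y153.MW.stA E A.V _ A.N hint hN
  have hC : Centred (fun c : ℤ => A.wt g {m + c}) A.N := by
    intro a
    refine ⟨fun x hx h0 => h.inj a x hx h0, fun y hy => ?_⟩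
    have hy' : y ∈ A.wt g {m + -(a : ℤ)} := hy
    obtain ⟨x, hx, hxy⟩ := h.surj a y (by rwa [← sub_eq_add_neg] at hy')
    exact ⟨x, hx, hxy⟩
  have htop := (Pool.Agent.Y614.MW.stF E A.V _ A.N hint S).1 hC
  obtain ⟨e, h', hs⟩ := Pool.Agent.Y664.MW.t_B2 E A.V _ A.N S
  refine ⟨_, inferInstance, S.b, _, e, h', hs, ?_⟩
  rintro ⟨s, i⟩
  have h1 := S.mem s i
  rw [htop s] at h1
  exact h1

/-- the eigenspaces of `h` -/
lemma eig_of_wt {I : Type} [Fintype I] {b : Basis I E A.V} {a : I → ℤ} {e h : Module.End E A.V}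
    (hs : IsSl2 A.N b a e h) (hb : ∀ i, b i ∈ A.wt g {m + a i}) (c : ℤ) {x : A.V}
    (hx : x ∈ A.wt g {m + c}) : h x = (c : E) • x := by
  classical
  have h1 := b.sum_repr x
  rw [← Finset.sum_filter_add_sum_filter_not Finset.univ (fun i => a i = c)] at h1
  set y := ∑ i ∈ Finset.univ.filter (fun i => a i = c), b.repr x i • b i with hy
  set z := ∑ i ∈ Finset.univ.filter (fun i => ¬ a i = c), b.repr x i • b i with hz
  have hy1 : y ∈ A.wt g {m + c} := sum_wt _ _ _ fun i hi => by
    rw [Finset.mem_filter] at hi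
    have := hb i
    rw [hi.2] at this
    exact Submodule.smul_mem _ _ this
  have hz1 : z ∈ A.wt g {m + c}ᶜ := sum_wt _ _ _ fun i hi => by
    rw [Finset.mem_filter] at hi
    refine Submodule.smul_mem _ _ (wt_mono ?_ (hb i))
    intro j hj
    rw [Set.mem_singleton_iff] at hj
    rw [Set.mem_compl_iff, Set.mem_singleton_iff]
    have := hi.2
    omega
  have hz2 : z = 0 := by
    refine disj hp hg (J := {m + c}) (J' := {m + c}ᶜ) disjoint_compl_right ?_ hz1
    have h2 : z = x - y := by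
      rw [← h1]
      abel
    rw [h2]
    exact sub_mem hx hy1
  rw [hz2, add_zero] at h1
  rw [← h1, hy, map_sum, Finset.smul_sum]
  refine Finset.sum_congr rfl fun i hi => ?_
  rw [Finset.mem_filter] at hi
  rw [map_smul, hs.wt, hi.2, smul_comm]

omit hp hg in
lemma wt_of_eig {I : Type} [Fintype I] {b : Basis I E A.V} {a : I → ℤ} {e h : Module.End E A.V}
    (hs : IsSl2 A.N b a e h) (hb : ∀ i, b i ∈ A.wt g {m + a i}) (c : ℤ) {x : A.V}
    (hx : h x = (c : E) • x) : x ∈ A.wt g {m + c} := by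
  classical
  have h0 : ∀ i, b.repr x i = 0 ∨ a i = c := by
    intro i
    have h1 : b.repr (h x) i = (a i : E) * b.repr x i := by
      have h2 : h x = ∑ j, (b.repr x j * (a j : E)) • b j := by
        conv_lhs => rw [← b.sum_repr x]
        rw [map_sum]
        refine Finset.sum_congr rfl fun j _ => ?_
        rw [map_smul, hs.wt, smul_smul]
      rw [h2, b.repr_sum_self, mul_comm]
    rw [hx, map_smul, Finsupp.smul_apply, smul_eq_mul] at h1
    have h3 : ((c : E) - a i) * b.repr x i = 0 := by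
      rw [sub_mul, h1, sub_self]
    rcases mul_eq_zero.1 h3 with h4 | h4
    · right
      have h5 : (c : E) = a i := sub_eq_zero.1 h4
      exact (by exact_mod_cast h5.symm : a i = c)
    · exact Or.inl h4
  rw [← b.sum_repr x]
  refine sum_wt _ _ _ fun i _ => ?_
  rcases h0 i with h1 | h1
  · rw [h1, zero_smul]
    exact zero_mem _
  · have := hb i
    rw [h1] at this
    exact Submodule.smul_mem _ _ this

theorem wt_of_adp (H : Adp A m g) : A.WT m g := by
  obtain ⟨I, _, b, a, e, h, hs, hb⟩ := H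
  refine ⟨fun x => ?_, fun i x hx hN => ?_, fun i y hy => ?_⟩
  · rw [← b.sum_repr x]
    exact sum_wt _ _ _ fun i _ => Submodule.smul_mem _ _ (wt_mono (Set.subset_univ _) (hb i))
  · refine (Pool.Agent.Y141.MW.stL E A.V A.N I b a e h hs i).1 x ?_ hN
    have := eig_of_wt hp hg hs hb i hx
    simpa using this
  · have h1 := eig_of_wt hp hg hs hb (-(i : ℤ)) (x := y) (by rwa [← sub_eq_add_neg])
    obtain ⟨x, hx, hxy⟩ := (Pool.Agent.Y141.MW.stL E A.V A.N I b a e h hs i).2 y (by
      push_cast at h1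
      exact h1)
    exact ⟨x, wt_of_eig hs hb i (by simpa using hx), hxy⟩

end

section weights

lemma weil_mul_gen {L : Type*} [Field L] [CharZero L] {c : ℝ} (hc : 0 < c) {w w' : ℤ} {α β : L}
    (h : IsWeil c w α) (h' : IsWeil c w' β) : IsWeil c (w + w') (α * β) := by
  refine ⟨h.1.mul h'.1, fun y hy => ?_⟩
  obtain ⟨z, z', hz, hz', rfl⟩ := exists_root_of_mul h.1 h'.1 hy
  rw [norm_mul, h.2 z hz, h'.2 z' hz', ← Real.rpow_add hc]
  congr 1
  push_cast
  ring

lemma weil_alg {c : ℝ} {w : ℤ} {α : E} :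
    IsWeil c w (algebraMap E (AlgebraicClosure E) α) ↔ IsWeil c w α := by
  have hi : Function.Injective (algebraMap E (AlgebraicClosure E)) :=
    FaithfulSMul.algebraMap_injective E (AlgebraicClosure E)
  have h1 : minpoly ℚ (algebraMap E (AlgebraicClosure E) α) = minpoly ℚ α :=
    minpoly.algebraMap_eq hi α
  rw [IsWeil, IsWeil, isAlgebraic_algebraMap_iff hi, h1]

/-- the weight vectors are sums of generalised eigenvectors -/
lemma wt_le_gen [IsAlgClosed E] (j : ℤ) : A.wt g {j} ≤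
    ⨆ (α : E) (_ : IsWeil ((p : ℝ) ^ ν g) j α), (A.ρ g).maxGenEigenspace α := by
  have key : ∀ (n : ℕ) (P : E[X]), P.natDegree ≤ n → P ≠ 0 → (∀ α : E, P.eval α = 0 →
      IsWeil ((p : ℝ) ^ ν g) j α) → ∀ x : A.V, aeval (A.ρ g) P x = 0 →
      x ∈ ⨆ (α : E) (_ : IsWeil ((p : ℝ) ^ ν g) j α), (A.ρ g).maxGenEigenspace α := by
    intro n
    induction n with
    | zero =>
      intro P hd h0 _ x hx
      rw [Polynomial.eq_C_of_natDegree_le_zero hd] at hx h0
      rw [aeval_C, Module.algebraMap_end_apply] at hx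
      have h1 : P.coeff 0 ≠ 0 := fun h => h0 (by rw [h, map_zero])
      rw [(smul_eq_zero.1 hx).resolve_left h1]
      exact zero_mem _
    | succ n ih =>
      intro P hd h0 hP x hx
      by_cases hd0 : P.natDegree = 0
      · exact ih P (by omega) h0 hP x hx
      obtain ⟨α, hα⟩ := IsAlgClosed.exists_root P (by
        rw [Polynomial.degree_eq_natDegree h0]
        exact_mod_cast hd0)
      obtain ⟨Q, hQ, hdvd⟩ := Polynomial.exists_eq_pow_rootMultiplicity_mul_and_not_dvd P h0 α
      set r := P.rootMultiplicity α with hr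
      have hr1 : 1 ≤ r := (Polynomial.rootMultiplicity_pos h0).2 hα
      have hQ0 : Q ≠ 0 := fun h => hdvd (by rw [h]; exact dvd_zero _)
      have hcop : IsCoprime ((X - C α) ^ r) Q := by
        refine IsCoprime.pow_left ?_
        exact (Polynomial.irreducible_X_sub_C α).coprime_iff_not_dvd.2 hdvd
      obtain ⟨a, b, hab⟩ := hcop
      have hdeg : Q.natDegree ≤ n := by
        have h1 : P.natDegree = r + Q.natDegree := by
          conv_lhs => rw [hQ]
          rw [Polynomial.natDegree_mul (pow_ne_zero _ (X_sub_C_ne_zero α)) hQ0,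
            Polynomial.natDegree_pow, Polynomial.natDegree_X_sub_C, mul_one]
        omega
      have hx2 : x = aeval (A.ρ g) (a * (X - C α) ^ r) x + aeval (A.ρ g) (b * Q) x := by
        rw [← LinearMap.add_apply, ← map_add, hab, map_one, Module.End.one_apply]
      rw [hx2]
      refine add_mem ?_ ?_
      · refine ih Q hdeg hQ0 (fun β hβ => hP β ?_) _ ?_
        · rw [hQ, Polynomial.eval_mul, hβ, mul_zero]
        · rw [← Module.End.mul_apply, ← map_mul, show Q * (a * (X - C α) ^ r) = a * P by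
            rw [show a * P = a * ((X - C α) ^ r * Q) by rw [← hQ]]; ring, map_mul,
            Module.End.mul_apply, hx, map_zero]
      · refine Submodule.mem_iSup_of_mem α (Submodule.mem_iSup_of_mem (hP α hα) ?_)
        rw [Pool.Agent.Y136.UB.mem_gen]
        refine ⟨r, ?_⟩
        have h3 : A.ρ g - algebraMap E _ α = aeval (A.ρ g) (X - C α) := by
          rw [map_sub, aeval_X, aeval_C]
        rw [h3, ← map_pow, ← Module.End.mul_apply, ← map_mul,
          show (X - C α) ^ r * (b * Q) = b * P by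
            rw [show b * P = b * ((X - C α) ^ r * Q) by rw [← hQ]]; ring, map_mul,
          Module.End.mul_apply, hx, map_zero]
  rintro x ⟨P, hP, hx⟩
  refine key P.natDegree P le_rfl hP.1 (fun α hα => ?_) x hx
  obtain ⟨j', hj', h1⟩ := hP.2 (algebraMap E _ α) (by
    rw [aeval_algebraMap_apply, coe_aeval_eq_eval, hα, map_zero])
  rw [Set.mem_singleton_iff] at hj'
  subst hj'
  exact weil_alg.1 h1

lemma gen_le_wt {j : ℤ} {α : E} (hα : IsWeil ((p : ℝ) ^ ν g) j α) :
    (A.ρ g).maxGenEigenspace α ≤ A.wt g {j} := by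
  intro x hx
  rw [Pool.Agent.Y136.UB.mem_gen] at hx
  obtain ⟨r, hr⟩ := hx
  refine ⟨(X - C α) ^ r, ⟨pow_ne_zero _ (X_sub_C_ne_zero α), fun μ hμ => ⟨j, rfl, ?_⟩⟩, ?_⟩
  · rw [map_pow, map_sub, aeval_X, aeval_C] at hμ
    have h1 : μ = algebraMap E _ α := sub_eq_zero.1 (eq_zero_of_pow_eq_zero hμ)
    rw [h1]
    exact weil_alg.2 hα
  · have h3 : aeval (A.ρ g) (X - C α) = A.ρ g - algebraMap E _ α := by
      rw [map_sub, aeval_X, aeval_C]
    rw [map_pow, h3, hr]

lemma wt_tmul [IsAlgClosed E] (hp : 1 < p) {j j' : ℤ} {x : A.V} {y : B.V} (hx : x ∈ A.wt g {j})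
    (hy : y ∈ B.wt g {j'}) : (U672.MW.tm x y : (tensor A B).V) ∈ (tensor A B).wt g {j + j'} := by
  have h1 : ∀ (x : A.V) (y : B.V) (α β : E), IsWeil ((p : ℝ) ^ ν g) j α →
      IsWeil ((p : ℝ) ^ ν g) j' β → x ∈ (A.ρ g).maxGenEigenspace α →
      y ∈ (B.ρ g).maxGenEigenspace β →
      (U672.MW.tm x y : (tensor A B).V) ∈ (tensor A B).wt g {j + j'} := by
    intro x y α β hα hβ hx hy
    exact gen_le_wt (A := tensor A B) (weil_mul_gen (pos hp) hα hβ)
      (Pool.Agent.Y136.UB.gen_tmul hx hy)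
  have h2 : ∀ y ∈ B.wt g {j'}, ∀ x : A.V, ∀ α : E, IsWeil ((p : ℝ) ^ ν g) j α →
      x ∈ (A.ρ g).maxGenEigenspace α →
      (U672.MW.tm x y : (tensor A B).V) ∈ (tensor A B).wt g {j + j'} := by
    intro y hy x α hα hx
    have h3 : (⨆ (β : E) (_ : IsWeil ((p : ℝ) ^ ν g) j' β), (B.ρ g).maxGenEigenspace β) ≤
        ((tensor A B).wt g {j + j'}).comap (TensorProduct.mk E A.V B.V x) :=
      iSup₂_le fun β hβ y hy => h1 x y α β hα hβ hx hy
    exact h3 (wt_le_gen j' hy)
  have h4 : (⨆ (α : E) (_ : IsWeil ((p : ℝ) ^ ν g) j α), (A.ρ g).maxGenEigenspace α) ≤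
      ((tensor A B).wt g {j + j'}).comap ((TensorProduct.mk E A.V B.V).flip y) :=
    iSup₂_le fun α hα x hx => h2 y hy x α hα hx
  exact h4 (wt_le_gen j hx)

end weights

theorem adp_tensor [IsAlgClosed E] (hp : 1 < p) (hA : Adp A m g) (hB : Adp B m' g) :
    Adp (tensor A B) (m + m') g := by
  obtain ⟨I, _, b, a, e, h, hs, hb⟩ := hA
  obtain ⟨I', _, b', a', e', h', hs', hb'⟩ := hB
  refine ⟨I × I', inferInstance, b.tensorProduct b', fun q => a q.1 + a' q.2, _, _,
    Pool.Agent.Y210.MW.t_B3 E A.V B.V A.N I b a e h B.N I' b' a' e' h' hs hs', ?_⟩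
  rintro ⟨i, i'⟩
  have h1 := wt_tmul hp (hb i) (hb' i')
  rw [show m + a i + (m' + a' i') = m + m' + (a i + a' i') by ring] at h1
  have h2 : (b.tensorProduct b') (i, i') = b i ⊗ₜ[E] b' i' := Basis.tensorProduct_apply _ _ _ _
  exact (congrArg (fun z : A.V ⊗[E] B.V => (z : (tensor A B).V) ∈ (tensor A B).wt g
    {m + m' + (a i + a' i')}) h2).mpr h1

/-- **Tensor products.** -/
theorem mw_tensor [IsAlgClosed E] (hp : 1 < p) (hA : A.MW m) (hB : B.MW m') :
    (tensor A B).MW (m + m') := fun g hg =>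
  (WD.pureAt_iff hp hg).2 (wt_of_adp hp hg (adp_tensor hp
    (adp_of_wt hp hg ((WD.pureAt_iff hp hg).1 (hA g hg)))
    (adp_of_wt hp hg ((WD.pureAt_iff hp hg).1 (hB g hg)))))

/-- direct factors of direct sums -/
theorem mw_sum (hp : 1 < p) {r : ℕ} {U : Fin r → WD.{u, v} E p W ν} (h : IsFactorSum A U)
    (hU : ∀ j, (U j).MW m) : A.MW m := fun g hg => by
  refine (WD.pureAt_iff hp hg).2 ?_
  have hU' : ∀ j, (U j).WT m g := fun j => (WD.pureAt_iff hp hg).1 (hU j g hg)
  obtain ⟨s, t, hst⟩ := h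
  refine ⟨fun x => ?_, fun i x hx hN => ?_, fun i y hy => ?_⟩
  · rw [← hst x]
    exact sum_wt _ _ _ fun j _ => (t j).wt ((hU' j).mixed _)
  · rw [← hst x]
    refine Finset.sum_eq_zero fun j _ => ?_
    rw [(hU' j).inj i _ ((s j).wt hx) (by rw [← (s j).pow, hN, map_zero]), map_zero]
  · choose z hz hzy using fun j => (hU' j).surj i _ ((s j).wt hy)
    refine ⟨∑ j, (t j).f (z j), sum_wt _ _ _ fun j _ => (t j).wt (hz j), ?_⟩
    rw [map_sum]
    conv_rhs => rw [← hst y]
    refine Finset.sum_congr rfl fun j _ => ?_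
    rw [← (t j).pow, hzy]

end Pool.Agent.U672.MW
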